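import Mathlib

set_option autoImplicit false

universe u

namespace Pool.Agent.Results.MP_52157e_lc.NonGalvin

open Cardinal Set

section
variable {W : Type u} [LinearOrder W]

def NS (A : Set W) : Prop :=
  ∃ g : W → W, (∀ a ∈ A, g a < a) ∧ ∀ x, #{a | a ∈ A ∧ g a = x} < #W

theorem NS.mono {A B : Set W} (h : NS B) (hAB : A ⊆ B) : NS A := by
  obtain ⟨g, h1, h2⟩ := h
  refine ⟨g, fun a ha => h1 a (hAB ha), fun x =>
    lt_of_le_of_lt (mk_le_mk_of_subset ?_) (h2 x)⟩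
  intro a ha
  exact ⟨hAB ha.1, ha.2⟩

variable (hreg : (#W).IsRegular) (hun : ℵ₀ < #W) (hio : ∀ a : W, #(Iio a) < #W)

include hreg in
theorem NS_empty : NS (∅ : Set W) := ⟨id, by simp, fun x => by simpa using hreg.pos⟩

include hreg hun in
theorem NS_iUnion (A : ℕ → Set W) (h : ∀ n, NS (A n)) : NS (⋃ n, A n) := by
  classical
  choose g h1 h2 using h
  let k : W → ℕ := fun a => if h : ∃ n, a ∈ A n then h.choose else 0
  have hk : ∀ a ∈ ⋃ n, A n, a ∈ A (k a) := by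
    intro a ha
    have h : ∃ n, a ∈ A n := mem_iUnion.1 ha
    simp only [k, dif_pos h]
    exact h.choose_spec
  refine ⟨fun a => g (k a) a, fun a ha => h1 _ a (hk a ha), fun x => ?_⟩
  have := (card_iUnion_lt_iff_forall_of_isRegular
    (t := fun n : ULift.{u} ℕ => {a | a ∈ A n.1 ∧ g n.1 a = x})
    hreg (by simpa using hun)).2 (fun n => h2 n.1 x)
  refine lt_of_le_of_lt (mk_le_mk_of_subset ?_) this
  intro a ha
  exact mem_iUnion.2 ⟨⟨k a⟩, hk a ha.1, ha.2⟩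

include hreg hun in
theorem NS_union {A B : Set W} (hA : NS A) (hB : NS B) : NS (A ∪ B) := by
  have := NS_iUnion hreg hun (fun n => if n = 0 then A else B) (fun n => by
    split_ifs <;> assumption)
  refine this.mono ?_
  rintro a (h | h)
  · exact mem_iUnion.2 ⟨0, by simpa using h⟩
  · exact mem_iUnion.2 ⟨1, by simpa using h⟩

include hun hio in
theorem small_Iic (a : W) : #(Iic a) < #W := by
  rw [← Iio_insert]
  exact (mk_insert_le).trans_lt (add_lt_of_lt hun.le (hio a) (one_lt_aleph0.trans hun))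

include hreg hun hio in
theorem bdd_of_small {s : Set W} (hs : #s < #W) : ∃ b, ∀ a ∈ s, a < b := by
  have := (card_biUnion_lt_iff_forall_of_isRegular (t := fun a (_ : a ∈ s) => Iic a)
    hreg hs).2 (fun a _ => small_Iic hun hio a)
  by_contra hcon
  push Not at hcon
  have h2 : (⋃ a ∈ s, Iic a) = Set.univ := by
    rw [eq_univ_iff_forall]
    intro b
    obtain ⟨a, ha, hab⟩ := hcon b
    exact mem_biUnion ha hab
  rw [h2, mk_univ] at this
  exact lt_irrefl _ this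

include hreg hun hio in
theorem small_le {A : Set W} {g : W → W} (h2 : ∀ x, #{a | a ∈ A ∧ g a = x} < #W) (b : W) :
    #{a | a ∈ A ∧ g a ≤ b} < #W := by
  have := (card_biUnion_lt_iff_forall_of_isRegular
    (t := fun x (_ : x ∈ Iic b) => {a | a ∈ A ∧ g a = x})
    hreg (small_Iic hun hio b)).2 (fun x _ => h2 x)
  refine lt_of_le_of_lt (mk_le_mk_of_subset ?_) this
  intro a ha
  exact mem_iUnion₂.2 ⟨g a, ha.2, ha.1, rfl⟩

include hreg hun hio in
theorem NS_normal {A : Set W} {f : W → W} (hf : ∀ a ∈ A, f a < a)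
    (h : ∀ y, NS {a | a ∈ A ∧ f a = y}) : NS A := by
  choose g h1 h2 using h
  refine ⟨fun a => max (f a) (g (f a) a), fun a ha => max_lt (hf a ha) (h1 _ a ⟨ha, rfl⟩),
    fun x => ?_⟩
  have := (card_biUnion_lt_iff_forall_of_isRegular
    (t := fun y (_ : y ∈ Iic x) => {a | a ∈ {a | a ∈ A ∧ f a = y} ∧ g y a ≤ x})
    hreg (small_Iic hun hio x)).2 (fun y _ => small_le hreg hun hio (h2 y) x)
  refine (mk_le_mk_of_subset fun a ha => ?_).trans_lt this
  exact mem_biUnion (x := f a) ((le_max_left _ _).trans ha.2.le)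
    ⟨⟨ha.1, rfl⟩, (le_max_right _ _).trans ha.2.le⟩

def SS (W : Type u) [LinearOrder W] : Set W :=
  {a | ∃ f : ℕ → W, (∀ n, f n < a) ∧ ∀ b < a, ∃ n, b ≤ f n}

include hreg hun hio in
theorem not_NS_SS [WellFoundedLT W] : ¬ NS (SS W) := by
  rintro ⟨g, h1, h2⟩
  have hstep : ∀ b : W, ∃ c, ∀ a ∈ SS W, g a ≤ b → a < c := by
    intro b
    obtain ⟨c, hc⟩ := bdd_of_small hreg hun hio (small_le hreg hun hio h2 b)
    exact ⟨c, fun a ha hab => hc a ⟨ha, hab⟩⟩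
  choose step hstep using hstep
  have : Nonempty W := mk_ne_zero_iff.1 hreg.pos.ne'
  let q : ℕ → W := fun n => step^[n] (Classical.arbitrary W)
  obtain ⟨c, hc⟩ := bdd_of_small hreg hun hio (s := range q)
    ((le_aleph0_iff_set_countable.2 (countable_range _)).trans_lt hun)
  obtain ⟨a, ha, hmin⟩ := wellFounded_lt.has_min {x : W | ∀ n, q n < x}
    ⟨c, fun n => hc _ ⟨n, rfl⟩⟩
  have hb : ∀ b < a, ∃ n, b ≤ q n := by
    intro b hb
    by_contra hcon
    push Not at hcon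
    exact hmin b hcon hb
  have haS : a ∈ SS W := ⟨q, ha, hb⟩
  obtain ⟨n, hn⟩ := hb _ (h1 a haS)
  have h3 := hstep _ a haS hn
  have h4 := ha (n + 1)
  simp only [q, Function.iterate_succ_apply'] at h3 h4
  exact lt_asymm h3 h4

include hreg hun hio in
theorem solovay [WellFoundedLT W] : ∃ (T : W → Set W) (E : Set W), ¬ #E < #W ∧
    (∀ y ∈ E, ¬ NS (T y)) ∧ (∀ y z a, a ∈ T y → a ∈ T z → y = z) ∧
    ∀ y a, a ∈ T y → y < a := by
  classical
  have hF : ∀ a : W, ∃ f : ℕ → W, a ∈ SS W → (∀ n, f n < a) ∧ ∀ b < a, ∃ n, b ≤ f n := by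
    intro a
    by_cases h : a ∈ SS W
    · obtain ⟨f, hf⟩ := h
      exact ⟨f, fun _ => hf⟩
    · exact ⟨fun _ => a, fun h' => absurd h' h⟩
  choose F hF using hF
  have h1 : ∃ n, ∀ y, ¬ NS {a | a ∈ SS W ∧ y ≤ F a n} := by
    by_contra hcon
    push Not at hcon
    choose y hy using hcon
    obtain ⟨c, hc⟩ := bdd_of_small hreg hun hio (s := range y)
      ((le_aleph0_iff_set_countable.2 (countable_range _)).trans_lt hun)
    have h2 : NS {a | a ∈ SS W ∧ a ≤ c} :=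
      ⟨fun a => F a 0, fun a ha => (hF a ha.1).1 0, fun x =>
        (mk_le_mk_of_subset fun a ha => ha.1.2).trans_lt (small_Iic hun hio c)⟩
    apply not_NS_SS hreg hun hio
    refine (NS_union hreg hun h2 (NS_iUnion hreg hun _ hy)).mono fun a ha => ?_
    by_cases hac : a ≤ c
    · exact Or.inl ⟨ha, hac⟩
    · obtain ⟨n, hn⟩ := (hF a ha).2 c (not_le.1 hac)
      exact Or.inr (mem_iUnion.2 ⟨n, ha, (hc _ ⟨n, rfl⟩).le.trans hn⟩)
  obtain ⟨n, hn⟩ := h1
  refine ⟨fun y => {a | a ∈ SS W ∧ F a n = y}, {y | ¬ NS {a | a ∈ SS W ∧ F a n = y}}, ?_,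
    fun y hy => hy, fun y z a h1 h2 => h1.2.symm.trans h2.2,
    fun y a h => h.2 ▸ (hF a h.1).1 n⟩
  intro hE
  obtain ⟨c, hc⟩ := bdd_of_small hreg hun hio hE
  apply hn c
  apply NS_normal hreg hun hio (f := fun a => F a n) (fun a ha => (hF a ha.1).1 n)
  intro y
  by_cases hy : NS {a | a ∈ SS W ∧ F a n = y}
  · exact hy.mono fun a ha => ⟨ha.1.1, ha.2⟩
  · refine (NS_empty hreg).mono fun a ha => ?_
    have h1 := hc y hy
    have h2 : c ≤ y := ha.2 ▸ ha.1.2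
    exact absurd h1 (not_lt.2 h2)

include hreg hun hio in
theorem meets [WellFoundedLT W] {T C : Set W} {y : W} (hT : ¬ NS T) (hy : ∀ a ∈ T, y < a)
    (hC : IsClub C) : ∃ x ∈ T, x ∈ C := by
  classical
  by_contra hc
  push Not at hc
  have hg : ∀ a ∈ T, ∃ b < a, ∀ c ∈ C, c < a → c ≤ b := fun a ha => by
    by_contra h
    push Not at h
    obtain ⟨c, c1, c2, -⟩ := h y (hy a ha)
    refine hc a ha (hC.isLUB_mem (t := C ∩ Iio a) inter_subset_left ⟨c, c1, c2⟩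
      ⟨fun x hx => hx.2.le, fun b hb => not_lt.1 fun hba => ?_⟩)
    obtain ⟨d, d1, d2, d3⟩ := h b hba
    exact (hb ⟨d1, d2⟩).not_gt d3
  choose! g g1 g2 using hg
  refine hT ⟨g, g1, fun x => ?_⟩
  obtain ⟨b, hb⟩ := bdd_of_small hreg hun hio (small_Iic hun hio x)
  obtain ⟨c, c1, c2⟩ := hC.isCofinal b
  refine (mk_le_mk_of_subset fun a ha => not_lt.1 fun hca => ?_).trans_lt (small_Iic hun hio c)
  exact ((hb x le_rfl).trans_le c2).not_ge (ha.2 ▸ g2 a ha.1 c c1 hca)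

include hun hio in
theorem ad_family : ∃ M : Set (W → W), (M.Pairwise fun f g => #{a | f a = g a} < #W) ∧
    #W < #M := by
  obtain ⟨M, hM⟩ := zorn_subset {M : Set (W → W) | M.Pairwise fun f g => #{a | f a = g a} < #W}
    fun c hc hch => ⟨⋃₀ c, hch.pairwise_sUnion.2 hc, fun s hs => subset_sUnion_of_mem hs⟩
  refine ⟨M, hM.prop, not_le.1 fun h => ?_⟩
  obtain ⟨e⟩ := (le_def _ _).1 h
  have h1 : ∀ a : W, ∃ b, b ∉ (fun f : M => f.1 a) '' (e ⁻¹' Iic a) := fun a => by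
    by_contra hc
    push Not at hc
    have := ((mk_image_le (f := fun f : M => f.1 a)).trans
      (mk_preimage_of_injective _ _ e.injective)).trans_lt (small_Iic hun hio a)
    rw [eq_univ_of_forall hc, mk_univ] at this
    exact lt_irrefl _ this
  choose g hg using h1
  have h2 : ∀ f ∈ M, #{a | f a = g a} < #W := fun f hf =>
    (mk_le_mk_of_subset fun a ha => not_le.1 fun hle => hg a ⟨⟨f, hf⟩, hle, ha⟩).trans_lt
      (hio (e ⟨f, hf⟩))
  have h3 : g ∈ M := hM.mem_of_prop_insert (hM.prop.insert fun f hf _ =>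
    ⟨by simpa only [eq_comm] using h2 f hf, h2 f hf⟩)
  simpa using h2 g h3

end

/-- Every regular uncountable cardinal carries a proper complete filter that contains all clubs and
fails the Galvin property. -/
theorem result (κ : Cardinal.{u}) (hreg : κ.IsRegular) (hun : ℵ₀ < κ) :
    ∃ F : Filter κ.ord.ToType, F.NeBot ∧
      (∀ s : Set (Set κ.ord.ToType), #s < κ → (∀ X ∈ s, X ∈ F) → ⋂₀ s ∈ F) ∧
      (∀ C : Set κ.ord.ToType, IsClub C → C ∈ F) ∧
      ∃ A : (Order.succ κ).ord.ToType → Set κ.ord.ToType, (∀ i, A i ∈ F) ∧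
        ∀ I : Set (Order.succ κ).ord.ToType, #I = κ → (⋂ i ∈ I, A i) ∉ F := by
  have hW : #κ.ord.ToType = κ := mk_ord_toType κ
  have hio : ∀ a : κ.ord.ToType, #(Iio a) < #κ.ord.ToType := fun a => mk_Iio_lt a (by simp)
  have hcof : Order.cof κ.ord.ToType = κ := by simpa using hreg.cof_ord
  have hL := mk_ord_toType (Order.succ κ)
  generalize (Order.succ κ).ord.ToType = L at hL ⊢
  obtain ⟨T, E, hE, hT, hd, hy⟩ := solovay (hW.symm ▸ hreg) (hW.symm ▸ hun) hio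
  obtain ⟨M, hM, hM'⟩ := ad_family (hW.symm ▸ hun) hio
  obtain ⟨ι⟩ : Nonempty (κ.ord.ToType × κ.ord.ToType ↪ E) := (le_def _ _).1 (by
    simpa [mul_eq_self hun.le] using hE)
  obtain ⟨f⟩ : Nonempty (L ↪ M) := (le_def _ _).1 (hL ▸ Order.succ_le_iff.2 (hW.symm.trans_lt hM'))
  obtain ⟨N, hN⟩ : ∃ N : L → Set κ.ord.ToType, N = fun i => ⋃ a, T (ι (a, (f i).1 a)) := ⟨_, rfl⟩
  have h1 : ∀ s : Set (Set κ.ord.ToType), #s < κ →
      s ⊆ {X | ∃ C, IsClub C ∧ ∃ J : Set L, #J < κ ∧ C \ (⋃ j ∈ J, N j) ⊆ X} →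
      ⋂₀ s ∈ {X | ∃ C, IsClub C ∧ ∃ J : Set L, #J < κ ∧ C \ (⋃ j ∈ J, N j) ⊆ X} :=
    fun s hs h => by
    choose C hC J hJ hX using fun X : s => h X.2
    refine ⟨⋂ X, C X, IsClub.iInter (by rw [hcof]; exact hun.ne') (by simpa [hcof] using hs) hC,
      ⋃ X, J X, (card_iUnion_lt_iff_forall_of_isRegular hreg hs).2 hJ, fun x hx X h' =>
      hX ⟨X, h'⟩ ⟨mem_iInter.1 hx.1 _, fun hc => hx.2 ?_⟩⟩
    exact biUnion_subset_biUnion_left (subset_iUnion J _) hc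
  have h2 : ∀ I : Set L, #I = κ → ¬∃ C, IsClub C ∧ ∃ J : Set L, #J < κ ∧
      C \ (⋃ j ∈ J, N j) ⊆ ⋂ i ∈ I, (N i)ᶜ := by
    rintro I hI ⟨C, hC, J, hJ, h⟩
    obtain ⟨i, hi, hiJ⟩ : ∃ i ∈ I, i ∉ J := not_subset.1 fun hc =>
      (mk_le_mk_of_subset hc).not_gt (hI ▸ hJ)
    obtain ⟨a, ha⟩ : ∃ a, a ∉ ⋃ j ∈ J, {a | (f j).1 a = (f i).1 a} := by
      by_contra hc
      push Not at hc
      have := (card_biUnion_lt_iff_forall_of_isRegular
        (t := fun j (_ : j ∈ J) => {a | (f j).1 a = (f i).1 a}) hreg hJ).2 fun j hj =>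
        (hM (f j).2 (f i).2 fun e => hiJ (f.injective (Subtype.ext e) ▸ hj)).trans_eq hW
      rw [eq_univ_of_forall hc, mk_univ, hW] at this
      exact lt_irrefl _ this
    obtain ⟨x, hx, hxC⟩ := meets (hW.symm ▸ hreg) (hW.symm ▸ hun) hio
      (hT _ (ι (a, (f i).1 a)).2) (hy _) hC
    refine mem_iInter₂.1 (h ⟨hxC, fun hc => ?_⟩) i hi (hN ▸ mem_iUnion.2 ⟨a, hx⟩)
    obtain ⟨j, hj, hxj⟩ := mem_iUnion₂.1 hc
    obtain ⟨b, hb⟩ := mem_iUnion.1 (show x ∈ ⋃ a, T (ι (a, (f j).1 a)) by rwa [hN] at hxj)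
    obtain ⟨rfl, e⟩ := Prod.mk.inj (ι.injective (Subtype.ext (hd _ _ _ hb hx)))
    exact ha (mem_biUnion hj e)
  refine ⟨Filter.ofCardinalInter _ ((natCast_lt_aleph0 (n := 2)).trans hun) h1
    fun s t ⟨C, hC, J, hJ, h⟩ hst => ⟨C, hC, J, hJ, h.trans hst⟩, ⟨fun hb => ?_⟩, h1,
    fun C hC => ⟨C, hC, ∅, by simpa using hreg.pos, by simp⟩, fun i => (N i)ᶜ,
    fun i => ⟨univ, .univ, {i}, by simpa using one_lt_aleph0.trans hun, by simp [sdiff_eq]⟩, h2⟩
  obtain ⟨I, hI⟩ := le_mk_iff_exists_set.1 ((Order.le_succ κ).trans_eq hL.symm)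
  obtain ⟨C, hC, J, hJ, h⟩ := Filter.empty_mem_iff_bot.2 hb
  exact h2 I hI ⟨C, hC, J, hJ, h.trans (empty_subset _)⟩

end Pool.Agent.Results.MP_52157e_lc.NonGalvin
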